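import Pool.Agent.MP_77f003_co.H49.USpec

/-!
An infinite graph with a transitive group of elliptic automorphisms has all fat cliques.
-/

namespace Pool.Agent.MP_77f003_co.H49

open SimpleGraph Filter

variable {V : Type} {G : SimpleGraph V} [Fact G.Connected] [G.LocallyFinite]

theorem ell_fg (P : Subgroup (G ≃g G)) (ht : ∀ x y, ∃ φ ∈ P, φ x = y) (o : V) :
    ∃ Γ : Subgroup (G ≃g G), Γ ≤ P ∧ Group.FG Γ ∧ ∀ x y : V, ∃ γ : Γ, γ • x = y := by
  choose φ hP hφ using ht o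
  have : Finite (φ '' G.neighborSet o) := ((G.neighborSet o).toFinite.image φ).to_subtype
  refine ⟨Subgroup.closure (φ '' G.neighborSet o), (Subgroup.closure_le _).2 ?_, inferInstance, ?_⟩
  · rintro _ ⟨x, -, rfl⟩
    exact hP x
  have key : ∀ k x, G.dist x o = k →
      ∃ γ : Subgroup.closure (φ '' G.neighborSet o), γ • o = x := by
    intro k
    induction k with
    | zero => exact fun x hx => ⟨1, by rw [one_smul, eq_of_dist hx]⟩
    | succ k ih =>
      intro x hx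
      obtain ⟨z, hz, hz'⟩ := exists_step hx
      obtain ⟨γ, rfl⟩ := ih z hz'
      have e1 : G.Adj o (γ⁻¹ • x) := by
        have : G.Adj (γ⁻¹ • γ • o) (γ⁻¹ • x) := (γ⁻¹).1.map_adj_iff.2 hz.symm
        rwa [inv_smul_smul] at this
      refine ⟨γ * ⟨φ (γ⁻¹ • x), Subgroup.subset_closure ⟨_, e1, rfl⟩⟩, ?_⟩
      rw [mul_smul]
      show γ • φ (γ⁻¹ • x) o = x
      rw [hφ, smul_inv_smul]
  intro x y
  obtain ⟨γ, rfl⟩ := key _ x rfl
  obtain ⟨γ', rfl⟩ := key _ y rfl
  exact ⟨γ' * γ⁻¹, by rw [mul_smul, inv_smul_smul]⟩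

omit [Fact G.Connected] [G.LocallyFinite] in
theorem ell_period {g : G ≃g G} {x : V} (h : (Set.range fun n : ℕ => (g ^ n) x).Finite) :
    ∃ d : ℕ, 0 < d ∧ (g ^ d) x = x := by
  have : Finite (Set.range fun n : ℕ => (g ^ n) x) := h.to_subtype
  obtain ⟨m, n, hmn, he⟩ := Finite.exists_ne_map_eq_of_infinite
    (fun n : ℕ => (⟨(g ^ n) x, n, rfl⟩ : Set.range fun n : ℕ => (g ^ n) x))
  have he' : (g ^ m) x = (g ^ n) x := congrArg Subtype.val he
  wlog hlt : m < n generalizing m n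
  · exact this n m hmn.symm he.symm he'.symm (by omega)
  obtain ⟨d, rfl⟩ := Nat.exists_eq_add_of_lt hlt
  refine ⟨d + 1, by omega, (g ^ m).injective ?_⟩
  rw [he', add_assoc, pow_add g m]
  rfl

theorem ell_amenable [Infinite V] (P : Subgroup (G ≃g G)) (hP : Ell P)
    (ht : ∀ x y, ∃ φ ∈ P, φ x = y) (ha : Amenable G) (K h : ℕ) : FatCl G K h := by
  classical
  by_contra hno
  obtain ⟨o⟩ := (Fact.out : G.Connected).nonempty
  have hvt : VT G := fun x y => (ht x y).imp fun _ h => h.2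
  obtain ⟨C, hC⟩ := poly_growth hvt ha hno o
  obtain ⟨Γ, hΓ, hfg, htr⟩ := ell_fg P ht o
  have hact : Acts Γ G := fun γ x y hxy => γ.1.map_adj_iff.2 hxy
  obtain ⟨H, -, χ, ⟨g, hg⟩, h2⟩ := exists_hom hact htr ha o hC
  obtain ⟨d, hd, he⟩ := ell_period (hP _ (hΓ g.1.2) o)
  have h3 : χ (g ^ d) = 1 := h2 _ he
  rw [map_pow] at h3
  exact hg ((pow_eq_one_iff_left hd.ne').1 h3)

omit [G.LocallyFinite] in
theorem ell_window {L : ℤ → V} (hL : IsLine G L) {δ : ℕ} (hδ : Slim G 10 δ) (o : V) (ψ : G ≃g G)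
    (j : ℤ) : G.dist o (ψ (L j)) < G.dist o (ψ (L (j - (2 * δ + 1 : ℕ)))) ∨
      G.dist o (ψ (L j)) < G.dist o (ψ (L (j + (2 * δ + 1 : ℕ)))) := by
  set R := 2 * δ + 1 with hR
  set p : ℕ → V := fun k => ψ (L (j - R + k)) with hp
  have hgeo : Geo G p (2 * R) := fun a b hab _ => by
    simp only [hp]
    rw [dist_iso, hL]
    omega
  have p0 : p 0 = ψ (L (j - R)) := by simp [hp]
  have p1 : p R = ψ (L j) := by simp [hp]
  have p2 : p (2 * R) = ψ (L (j + R)) := by
    simp only [hp]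
    congr 2
    push_cast
    ring
  obtain ⟨q, q0, q1, q2⟩ := exists_geo' (G := G) o (p 0)
  obtain ⟨r, r0, r1, r2⟩ := exists_geo' (G := G) o (p (2 * R))
  have hq : Geo G q (G.dist o (p 0)) := q2
  have hr : Geo G r (G.dist o (p (2 * R))) := r2
  have l1 : Lk G (q '' Set.Iic (G.dist o (p 0)) ∪ r '' Set.Iic (G.dist o (p (2 * R)))) o (p 0) := by
    have := hq.lk (S := q '' Set.Iic (G.dist o (p 0)) ∪ r '' Set.Iic (G.dist o (p (2 * R))))
      (Nat.zero_le _) le_rfl fun k _ hk => Or.inl ⟨k, hk, rfl⟩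
    rwa [q0, q1] at this
  have l2 : Lk G (q '' Set.Iic (G.dist o (p 0)) ∪ r '' Set.Iic (G.dist o (p (2 * R)))) o
      (p (2 * R)) := by
    have := hr.lk (S := q '' Set.Iic (G.dist o (p 0)) ∪ r '' Set.Iic (G.dist o (p (2 * R))))
      (Nat.zero_le _) le_rfl fun k _ hk => Or.inr ⟨k, hk, rfl⟩
    rwa [r0, r1] at this
  obtain ⟨w, hw, hd⟩ := hδ p (2 * R) _ hgeo
    (((Set.finite_Iic _).image q).union ((Set.finite_Iic _).image r))
    (fun x => (hq.thin x).union (hr.thin x)) (l1.symm.trans l2) R (by omega)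
  rw [← p0, ← p1, ← p2]
  rcases hw with ⟨k, hk, rfl⟩ | ⟨k, hk, rfl⟩
  · left
    have hk' : k ≤ G.dist o (p 0) := hk
    have e1 := q2 0 k (Nat.zero_le _) hk
    have e2 := q2 k _ hk le_rfl
    rw [q0] at e1
    rw [q1] at e2
    have e3 := hgeo 0 R (Nat.zero_le _) (by omega)
    have e4 := tri (G := G) o (q k) (p R)
    have e5 := tri (G := G) (p R) (q k) (p 0)
    rw [dcomm (q k)] at e4
    rw [dcomm (p R) (p 0)] at e5
    omega
  · right
    have hk' : k ≤ G.dist o (p (2 * R)) := hk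
    have e1 := r2 0 k (Nat.zero_le _) hk
    have e2 := r2 k _ hk le_rfl
    rw [r0] at e1
    rw [r1] at e2
    have e3 := hgeo R (2 * R) (by omega) le_rfl
    have e4 := tri (G := G) o (r k) (p R)
    have e5 := tri (G := G) (p R) (r k) (p (2 * R))
    rw [dcomm (r k)] at e4
    omega

theorem ell_shift (P : Subgroup (G ≃g G)) (ht : ∀ x y, ∃ φ ∈ P, φ x = y) {L : ℤ → V}
    (hL : IsLine G L) (R : ℕ) : ∃ a b : ℤ, a < b ∧ ∃ g ∈ P, ∀ i : ℤ, i.natAbs ≤ R →
      g (L (a + i)) = L (b + i) := by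
  obtain ⟨o⟩ := (Fact.out : G.Connected).nonempty
  choose φ hP hφ using fun a : ℕ => ht (L a) o
  have : Finite {y | G.dist o y ≤ R} := (finite_ball (G := G) o R).to_subtype
  obtain ⟨a, b, hab, he⟩ := Finite.exists_ne_map_eq_of_infinite
    (fun (a : ℕ) (i : Fin (2 * R + 1)) => (⟨φ a (L (a + ((i : ℕ) - R : ℤ))), by
      show G.dist o _ ≤ R
      rw [← hφ a, dist_iso, hL]
      have := i.2
      omega⟩ : {y | G.dist o y ≤ R}))
  have he' : ∀ i : ℤ, i.natAbs ≤ R → φ a (L (a + i)) = φ b (L (b + i)) := by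
    intro i hi
    have := congrArg Subtype.val (congrFun he ⟨(i + R).toNat, by omega⟩)
    simp only at this
    rwa [show (((i + R).toNat : ℕ) : ℤ) - R = i by omega] at this
  clear he
  wlog hlt : a < b generalizing a b
  · exact this b a hab.symm (fun i hi => (he' i hi).symm) (by omega)
  refine ⟨a, b, by exact_mod_cast hlt, (φ b)⁻¹ * φ a, P.mul_mem (P.inv_mem (hP b)) (hP a),
    fun i hi => ?_⟩
  apply (φ b).injective
  rw [← he' i hi]
  show (φ b * ((φ b)⁻¹ * φ a)) _ = _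
  rw [mul_inv_cancel_left]

theorem ell_slim [Infinite V] (P : Subgroup (G ≃g G)) (hP : Ell P)
    (ht : ∀ x y, ∃ φ ∈ P, φ x = y) {δ : ℕ} (hδ : Slim G 10 δ) : False := by
  obtain ⟨o⟩ := (Fact.out : G.Connected).nonempty
  have hvt : VT G := fun x y => (ht x y).imp fun _ h => h.2
  obtain ⟨L, hL⟩ := exists_line hvt o
  obtain ⟨a, b, hab, g, hg, he⟩ := ell_shift P ht hL (2 * δ + 1)
  set R := 2 * δ + 1 with hR
  set Y : Set V := {y | ∃ n : ℤ, ∃ j, a ≤ j ∧ j < b ∧ y = (g ^ n) (L j)} with hY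
  have hfin : Y.Finite := by
    refine ((Set.finite_Ico a b).biUnion fun j _ =>
      (hP g hg (L j)).union (hP g⁻¹ (P.inv_mem hg) (L j))).subset ?_
    rintro _ ⟨n, j, h1, h2, rfl⟩
    refine Set.mem_biUnion (x := j) ⟨h1, h2⟩ ?_
    obtain ⟨m, rfl | rfl⟩ := Int.eq_nat_or_neg n
    · exact Or.inl ⟨m, by simp⟩
    · exact Or.inr ⟨m, by simp⟩
  have hinv : ∀ n : ℤ, ∀ y ∈ Y, (g ^ n) y ∈ Y := by
    rintro n _ ⟨m, j, h1, h2, rfl⟩
    exact ⟨n + m, j, h1, h2, by rw [zpow_add]; rfl⟩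
  have hup : ∀ k : ℕ, ∀ t, a ≤ t → t ≤ a + k → t ≤ b + R → L t ∈ Y := by
    intro k
    induction k with
    | zero => exact fun t h1 h2 _ => ⟨0, t, h1, by omega, by simp⟩
    | succ k ih =>
      intro t h1 h2 h3
      by_cases h4 : t < b
      · exact ⟨0, t, h1, h4, by simp⟩
      · have e := he (t - b) (by omega)
        rw [show b + (t - b) = t by ring] at e
        have := hinv 1 _ (ih (a + (t - b)) (by omega) (by omega) (by omega))
        rwa [zpow_one, e] at this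
  have hdown : ∀ k : ℕ, ∀ t, t < b → b ≤ t + 1 + k → a ≤ t + R → L t ∈ Y := by
    intro k
    induction k with
    | zero => exact fun t h1 h2 _ => ⟨0, t, by omega, h1, by simp⟩
    | succ k ih =>
      intro t h1 h2 h3
      by_cases h4 : a ≤ t
      · exact ⟨0, t, h4, h1, by simp⟩
      · have e := he (t - a) (by omega)
        rw [show a + (t - a) = t by ring] at e
        have := hinv (-1) _ (ih (b + (t - a)) (by omega) (by omega) (by omega))
        rw [← e, zpow_neg_one] at this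
        have e2 : g⁻¹ (g (L t)) = L t := by
          show (g⁻¹ * g) _ = _
          rw [inv_mul_cancel]
          rfl
        rwa [e2] at this
  obtain ⟨_, ⟨n, j, h1, h2, rfl⟩, hmax⟩ := hfin.exists_maximalFor (G.dist o) Y
    ⟨L a, 0, a, le_rfl, hab, by simp⟩
  have m1 := hinv n _ (hdown (b - (j - R)).toNat (j - R) (by omega) (by omega) (by omega))
  have m2 := hinv n _ (hup (j + R - a).toNat (j + R) (by omega) (by omega) (by omega))
  rcases ell_window hL hδ o (g ^ n) j with h | h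
  · exact absurd (hmax m1 h.le) (not_le.2 h)
  · exact absurd (hmax m2 h.le) (not_le.2 h)

theorem ellSpec (hO : OmegaSpec) : EllSpec := by
  intro V _ G _ _ P hP ht K h
  by_cases ha : Amenable G
  · exact ell_amenable P hP ht ha K h
  obtain ⟨o⟩ := (Fact.out : G.Connected).nonempty
  have hvt : VT G := fun x y => (ht x y).imp fun _ h => h.2
  by_cases hS : Switch G K
  · refine fatCl_of_switch ha hvt hS (o := o) (fun α β hα hβ t => ?_) h
    obtain ⟨m, hm⟩ := (hα.proper o (2 * t + 2)).exists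
    obtain ⟨n, hn⟩ := (hβ.proper o (2 * t + 2)).exists
    obtain ⟨φ, h1, h2⟩ := ht o (α m)
    obtain ⟨ψ, h3, h4⟩ := ht o (β n)
    have := hO G P o t hP φ h1 ψ h3 (by rwa [h2]) (by rwa [h4])
    rw [h2, h4] at this
    exact ⟨m, n, this.mono fun z hz => ⟨le_of_lt hz, by simp⟩⟩
  · obtain ⟨δ, hδ⟩ := exists_slim ha hvt hS 10
    exact (ell_slim P hP ht hδ).elim

end Pool.Agent.MP_77f003_co.H49
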