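import Pool.Agent.MP_77f003_co.H51.HBasic

/-!
Rerouting far rays to another end along many double rays.
-/

namespace Pool.Agent.MP_77f003_co.H49

open SimpleGraph Filter Set

namespace USE

variable {V ι κ : Type} {G : SimpleGraph V} {a b : ℕ → V} {l : κ → ℤ → V} {S σ : ℕ}
  {M : ι → ℕ → V} {O : ι → Set V}

theorem lane_step (h : Lanes G S a b l) (j : κ) (z : ℤ) : G.dist (l j z) (l j (z + 1)) ≤ 1 := by
  rcases z with n | n
  · exact (h.pos.lr j).1 n
  · have := (h.neg.lr j).1 n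
    rw [dcomm] at this
    rwa [show Int.negSucc n + 1 = -(n : ℤ) by omega, show Int.negSucc n = -((n + 1 : ℕ) : ℤ) by omega]

theorem lane_far (h : Lanes G S a b l) (j : κ) (x : V) (t : ℕ) :
    ∃ N : ℕ, ∀ z : ℤ, N ≤ z → t ≤ G.dist x (l j z) := by
  obtain ⟨N, hN⟩ := eventually_atTop.1 ((h.pos.lr j).2 x t)
  refine ⟨N, fun z hz => ?_⟩
  have : t ≤ G.dist x (l j (z.toNat : ℕ)) := hN z.toNat (by omega)
  rwa [show ((z.toNat : ℕ) : ℤ) = z by omega] at this

variable [Fact G.Connected]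

theorem route (h : Lanes G S a b l) (hb : LR G b) {w : ℕ → V} (hw : LR G w) {P : Set V} {m : ℕ}
    {j : κ} {J : ℤ} (k : Lk G P (w m) (l j J)) : ∃ ψ, LR G ψ ∧ SE G ψ b ∧ ψ 0 = w 0 ∧
      range ψ ⊆ w '' Iic m ∪ P ∪ l j '' Ioi J := by
  have r : LR G fun k : ℕ => l j (J + k) := ⟨fun n => by
    simpa only [Nat.cast_succ, ← add_assoc] using lane_step h j (J + n), fun x t =>
      let ⟨N, hN⟩ := lane_far h j x t
      (eventually_ge_atTop (N + J.natAbs)).mono fun n hn => hN _ (by omega)⟩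
  have e : TE (fun k : ℕ => l j (J + k)) fun n : ℕ => l j n :=
    ⟨(-J).toNat, J.toNat, fun k => congrArg (l j) (by omega)⟩
  obtain ⟨ψ, h1, h2, h3, h4⟩ := splice (Z := w '' Iic m ∪ P) (x := w 0) (n := 0) r
    ((hw.lk fun i _ hi => Or.inl ⟨i, by simpa using hi, rfl⟩).trans
      ((by simpa using k : Lk G P (w m) (l j (J + (0 : ℕ)))).mono subset_union_right))
  refine ⟨ψ, h1, ((h3.trans e).se h1).trans (h.pos.se j) h1 (h.pos.lr j) hb, h2, h4.trans ?_⟩
  rintro z (hz | ⟨n, -, rfl⟩)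
  · exact Or.inl hz
  · rcases n with _ | n
    · exact Or.inl (Or.inr (by simpa using k.right))
    · exact Or.inr ⟨_, show J < J + (n + 1 : ℕ) by omega, rfl⟩

theorem key (ha : LR G a) (hb : LR G b) (hab : ¬ SE G a b) {α ψ : ℕ → V} (h1 : LR G α)
    (h2 : SE G α a) (h3 : LR G ψ) (h4 : SE G ψ b) (x : V) (σ : ℕ) :
    ∀ᶠ t in atTop, ∀ m z, Lk G {z | t ≤ G.dist x z} z (α m) → ∀ k, σ ≤ G.dist z (ψ k) := by
  have h : ¬ SE G α ψ := fun e => hab ((h2.symm.trans e ha h1 h3).trans h4 ha h3 hb)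
  unfold SE at h
  push Not at h
  obtain ⟨y, s, h⟩ := h
  filter_upwards [eventually_ge_atTop (s + G.dist x y + σ)] with t ht m z hz k
  by_contra c
  have e : t ≤ G.dist x z := hz.left
  refine h m k ((hz.symm.mono fun v hv => ?_).trans (Lk.ball fun v hv => ?_))
  · have e1 : t ≤ G.dist x v := hv
    have e2 := tri (G := G) x y v
    show s ≤ G.dist y v
    omega
  · have e1 := tri (G := G) x y z
    have e2 := tri (G := G) y v z
    rw [dcomm v z] at e2
    show s ≤ G.dist y v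
    omega

omit [Fact G.Connected] in
theorem cross {α β : Type} {H : SimpleGraph (α ⊕ β)} {i : α} {c : α ⊕ β}
    (h : Rch H univ (.inl i) c) : (∃ i', c = .inl i') ∨ ∃ i' j, H.Adj (.inl i') (.inr j) := by
  induction h with
  | refl => exact Or.inl ⟨i, rfl⟩
  | @tail c d _ e ih =>
    rcases ih with ⟨i', rfl⟩ | ih
    · rcases d with d | d
      exacts [Or.inl ⟨d, rfl⟩, Or.inr ⟨i', d, e.2.2⟩]
    · exact Or.inr ih

/-- The state of the greedy rerouting. -/
structure Inv (G : SimpleGraph V) (σ : ℕ) (b : ℕ → V) (M : ι → ℕ → V) (l : κ → ℤ → V)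
    (O : ι → Set V) (A : Finset ι) (F : Finset κ) (Ψ : ι → ℕ → V) : Prop where
  card : A.card ≤ F.card
  ray : ∀ i ∉ A, LR G (Ψ i) ∧ SE G (Ψ i) b ∧ Ψ i 0 = M i 0 ∧ Far G σ (O i) (range (Ψ i))
  pp : ∀ i ∉ A, ∀ i' ∉ A, i ≠ i' → Far G σ (range (Ψ i)) (range (Ψ i'))
  pm : ∀ i ∉ A, ∀ i' ∈ A, Far G σ (range (Ψ i)) (range (M i'))
  pl : ∀ i ∉ A, ∀ j ∈ F, Far G σ (range (Ψ i)) (range (l j))
  ml : ∀ i ∈ A, ∀ j ∈ F, Far G (2 * σ) (range (M i)) (range (l j))

theorem step [Finite ι] [Finite κ] [DecidableEq ι] (hR : ReachSpec) (hσ : 1 ≤ σ) (ha : LR G a)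
    (hb : LR G b) (hab : ¬ SE G a b) (hM : RF G (9 * σ) a M) (hl : Lanes G (9 * σ) a b l)
    (hO : ∀ i, (O i).Finite ∧ Far G (9 * σ) (O i) (range (M i)) ∧
      ∀ j, Far G (9 * σ) (O i) (range (l j))) {A : Finset ι} {F : Finset κ} {Ψ : ι → ℕ → V}
    (h : Inv G σ b M l O A F Ψ) (hA : A.Nonempty) :
    ∃ i ∈ A, ∃ F' Ψ', Inv G σ b M l O (A.erase i) F' Ψ' := by
  classical
  have sub : ∀ j, range (fun n : ℕ => l j (-n)) ⊆ range (l j) := by
    rintro j _ ⟨n, rfl⟩
    exact ⟨_, rfl⟩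
  let ρ : A ⊕ F → ℕ → V := Sum.elim (fun i => M i) fun j n => l j (-n)
  have hρ : RF G (2 * σ) a ρ := by
    refine ⟨?_, ?_, ?_⟩
    · rintro (i | j)
      exacts [hM.lr i, hl.neg.lr j]
    · rintro (i | j)
      exacts [hM.se i, hl.neg.se j]
    · rintro (i | j) (i' | j') e
      · exact (hM.far i i' fun k => e (congrArg _ (Subtype.ext k))).le (by omega)
      · exact (h.ml i i.2 j' j'.2).mono le_rfl (sub _)
      · exact ((h.ml i' i'.2 j j.2).mono le_rfl (sub _)).symm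
      · exact (hl.neg.far j j' fun k => e (congrArg _ (Subtype.ext k))).le (by omega)
  obtain ⟨i₀, hi₀⟩ := hA
  obtain ⟨j₀, hj₀⟩ : F.Nonempty := Finset.card_pos.1 ((Finset.card_pos.2 ⟨i₀, hi₀⟩).trans_le h.card)
  obtain ⟨⟨i, hi⟩, ⟨j, hj⟩, e⟩ :=
    (cross (hρ.rch hR hσ ha (.inl ⟨i₀, hi₀⟩) (.inr ⟨j₀, hj₀⟩))).resolve_left (by simp)
  have k1 : ∀ᶠ t in atTop, ∀ i', i' ∉ A → ∀ m z, Lk G {z | t ≤ G.dist (a 0) z} z (M i m) →
      ∀ k, σ ≤ G.dist z (Ψ i' k) := eventually_all.2 fun i' => by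
    by_cases c : i' ∈ A
    · exact Eventually.of_forall fun _ k => absurd c k
    · exact (key ha hb hab (hM.lr i) (hM.se i) (h.ray i' c).1 (h.ray i' c).2.1 _ _).mono
        fun _ k _ => k
  have k2 : ∀ᶠ t in atTop, ∀ j', ∀ m z, Lk G {z | t ≤ G.dist (a 0) z} z (M i m) →
      ∀ k : ℕ, σ ≤ G.dist z (l j' k) := eventually_all.2 fun j' =>
    key ha hb hab (hM.lr i) (hM.se i) (hl.pos.lr j') (hl.pos.se j') _ _
  obtain ⟨t, ⟨t1, t2⟩, t3⟩ := ((k1.and k2).and (far_out (G := G) (hO i).1 (a 0) σ)).exists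
  obtain ⟨m, n, L⟩ := e.2 (a 0) t
  obtain ⟨P, -, p1, p2, p3⟩ := L.symm.fin
  have p4 : ∀ z ∈ P, Lk G {z | t ≤ G.dist (a 0) z} z (M i m) := fun z hz =>
    (p3 z hz).mono fun v hv => (p1 hv).1
  obtain ⟨ψ, q1, q2, q3, q4⟩ := route hl hb (hM.lr i) (p3 _ p2).symm
  have q5 : range ψ ⊆ range (M i) ∪ P ∪ range (l j) := q4.trans
    (union_subset_union (union_subset_union_left _ (image_subset_range _ _))
      (image_subset_range _ _))
  have q6 : ∀ i' ∉ A, Far G σ (range ψ) (range (Ψ i')) := fun i' hi' =>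
    (((h.pm i' hi' i hi).symm.union (by
      rintro z hz _ ⟨k, rfl⟩
      exact t1 i' hi' m z (p4 z hz) k)).union (h.pl i' hi' j hj).symm).mono q5 le_rfl
  have mem : ∀ i', i' ∉ A.erase i → i' ≠ i → i' ∉ A := fun i' c c' k =>
    c (Finset.mem_erase.2 ⟨c', k⟩)
  refine ⟨i, hi, F.erase j, Function.update Ψ i ψ, ?_, fun i' c => ?_, fun i' c i'' c' ne => ?_,
    fun i' c i'' c' => ?_, fun i' c j' c' => ?_, fun i' c j' c' =>
      h.ml i' (Finset.mem_of_mem_erase c) j' (Finset.mem_of_mem_erase c')⟩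
  · rw [Finset.card_erase_of_mem hi, Finset.card_erase_of_mem hj]
    exact Nat.sub_le_sub_right h.card 1
  · rcases eq_or_ne i' i with rfl | d
    · rw [Function.update_self]
      exact ⟨q1, q2, q3, ((((hO i').2.1.le (by omega)).union' (t3.mono le_rfl fun v hv =>
        (p1 hv).1)).union' (((hO i').2.2 j).le (by omega))).mono le_rfl q5⟩
    · rw [Function.update_of_ne d]
      exact h.ray i' (mem i' c d)
  · rcases eq_or_ne i' i with rfl | d
    · rw [Function.update_self, Function.update_of_ne ne.symm]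
      exact q6 i'' (mem i'' c' ne.symm)
    rcases eq_or_ne i'' i with rfl | d'
    · rw [Function.update_self, Function.update_of_ne d]
      exact (q6 i' (mem i' c d)).symm
    · rw [Function.update_of_ne d, Function.update_of_ne d']
      exact h.pp i' (mem i' c d) i'' (mem i'' c' d') ne
  · obtain ⟨c1, c2⟩ := Finset.mem_erase.1 c'
    rcases eq_or_ne i' i with rfl | d
    · rw [Function.update_self]
      refine ((((hM.far i' i'' c1.symm).le (by omega)).union ?_).union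
        ((h.ml i'' c2 j hj).symm.le (by omega))).mono q5 le_rfl
      rintro z hz _ ⟨k, rfl⟩
      exact (p1 hz).2 (.inl ⟨i'', c2⟩) (by simpa using c1) (by simp) k
    · rw [Function.update_of_ne d]
      exact h.pm i' (mem i' c d) i'' c2
  · obtain ⟨c1, c2⟩ := Finset.mem_erase.1 c'
    rcases eq_or_ne i' i with rfl | d
    · rw [Function.update_self]
      refine ((((h.ml i' hi j' c2).le (by omega)).union ?_).union
        ((hl.far j j' c1.symm).le (by omega))).mono q5 le_rfl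
      rintro z hz _ ⟨k, rfl⟩
      obtain ⟨k, rfl | rfl⟩ := k.eq_nat_or_neg
      · exact t2 j' m z (p4 z hz) k
      · exact (p1 hz).2 (.inr ⟨j', c2⟩) (by simp) (by simpa using c1) k
    · rw [Function.update_of_ne d]
      exact h.pl i' (mem i' c d) j' c2

omit [Fact G.Connected] in
/-- A set of rays that are asymptotically close to few lanes, all others being close to many. -/
theorem hall [Fintype ι] [Fintype κ] (N : ι → κ → Prop)
    (h : Fintype.card ι ^ 2 + 2 * Fintype.card ι ≤ Fintype.card κ) :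
    ∃ (A : Set ι) (L : Finset κ), 2 * Fintype.card ι ≤ L.card ∧ (∀ i ∈ A, ∀ j ∈ L, ¬ N i j) ∧
      ∀ i ∉ A, ∃ T ⊆ L, Fintype.card ι < T.card ∧ ∀ j ∈ T, N i j := by
  classical
  let n : Finset ι → Finset κ := fun A => Finset.univ.filter fun j => ∃ i ∈ A, N i j
  obtain ⟨A, h1, h2⟩ := Finset.exists_max_image
    (Finset.univ.filter fun A : Finset ι => (n A).card ≤ Fintype.card ι * A.card) Finset.card
    ⟨∅, by simp [n]⟩
  simp only [Finset.mem_filter, Finset.mem_univ, true_and] at h1 h2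
  refine ⟨A, (n A)ᶜ, ?_, fun i hi j hj e => ?_, fun i hi => ⟨n (insert i A) \ n A,
    fun j hj => Finset.mem_compl.2 (Finset.mem_sdiff.1 hj).2, ?_, fun j hj => ?_⟩⟩
  · have := Nat.mul_le_mul_left (Fintype.card ι) A.card_le_univ
    rw [Finset.card_compl]
    rw [sq] at h
    omega
  · exact Finset.mem_compl.1 hj (Finset.mem_filter.2 ⟨Finset.mem_univ _, i, hi, e⟩)
  · have e := Finset.card_insert_of_notMem (show i ∉ A from hi)
    have e1 := mt (h2 (insert i A)) (by omega)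
    have e2 := Finset.le_card_sdiff (n A) (n (insert i A))
    rw [e, mul_add] at e1
    omega
  · obtain ⟨e1, e2⟩ := Finset.mem_sdiff.1 hj
    obtain ⟨i', e3, e4⟩ := (Finset.mem_filter.1 e1).2
    rcases Finset.mem_insert.1 e3 with rfl | e3
    · exact e4
    · exact absurd (Finset.mem_filter.2 ⟨Finset.mem_univ _, i', e3, e4⟩) e2

theorem start [Fintype ι] [Fintype κ] (hP : PymSpec) (hσ : 1 ≤ σ) (hb : LR G b)
    (hM : RF G (9 * σ) a M) (hl : Lanes G (9 * σ) a b l)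
    (hc : Fintype.card ι ^ 2 + 2 * Fintype.card ι ≤ Fintype.card κ)
    (hO : ∀ i, (O i).Finite ∧ Far G (9 * σ) (O i) (range (M i)) ∧
      ∀ j, Far G (9 * σ) (O i) (range (l j))) : ∃ A F Ψ, Inv G σ b M l O A F Ψ := by
  classical
  obtain ⟨A₀, L, a1, a2, a3⟩ :=
    hall (fun i j => ∃ᶠ k in atTop, ∃ J, G.dist (M i k) (l j J) ≤ 3 * σ) hc
  obtain ⟨B, hB⟩ : ∃ B, ∀ i j, (∃ k ≤ B, ∃ J, G.dist (M i k) (l j J) ≤ 3 * σ) ∧
      (∃ᶠ k in atTop, ∃ J, G.dist (M i k) (l j J) ≤ 3 * σ) ∨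
      (¬ ∃ᶠ k in atTop, ∃ J, G.dist (M i k) (l j J) ≤ 3 * σ) ∧
      ∀ k, B ≤ k → ∀ J, 3 * σ < G.dist (M i k) (l j J) := by
    refine Eventually.exists (f := atTop) (eventually_all.2 fun i => eventually_all.2 fun j => ?_)
    by_cases c : ∃ᶠ k in atTop, ∃ J, G.dist (M i k) (l j J) ≤ 3 * σ
    · obtain ⟨k, hk⟩ := c.exists
      exact (eventually_ge_atTop k).mono fun B e => Or.inl ⟨⟨k, e, hk⟩, c⟩
    · obtain ⟨k, hk⟩ := eventually_atTop.1 (not_frequently.1 c)
      exact (eventually_ge_atTop k).mono fun B e => Or.inr ⟨c, fun k' e' J =>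
        not_le.1 fun d => hk k' (e.trans e') ⟨J, d⟩⟩
  have mm : ∀ i i' k k', i ≠ i' → 9 * σ ≤ G.dist (M i k) (M i' k') := fun i i' k k' e =>
    hM.far i i' e _ ⟨k, rfl⟩ _ ⟨k', rfl⟩
  have ll : ∀ j j' k k', j ≠ j' → 9 * σ ≤ G.dist (l j k) (l j' k') := fun j j' k k' e =>
    hl.far j j' e _ ⟨k, rfl⟩ _ ⟨k', rfl⟩
  obtain ⟨n, μ, n1, n2, n3, n4⟩ := hP (fun i k j J => j ∈ L ∧ G.dist (M i k) (l j J) ≤ 3 * σ) B
    (fun i k j => let ⟨N, hN⟩ := lane_far hl j (M i k) (3 * σ + 1)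
      ⟨N, fun J hJ => by
        by_contra c
        have := hN J (not_le.1 c).le
        have := hJ.2
        omega⟩)
    (fun i k j J j' J' e e' => by
      by_contra c
      have e1 := ll j j' J J' c
      have e2 := tri (G := G) (l j J) (M i k) (l j' J')
      rw [dcomm (l j J) (M i k)] at e2
      omega)
  let F := L.filter fun j => ∀ i J, μ i ≠ some (j, J)
  have f0 : ∀ T ⊆ L, (∀ j ∈ T, j ∉ F) → T.card ≤ Fintype.card ι := fun T hT e => by
    have : ∀ j : T, ∃ i J, μ i = some (j.1, J) := fun j => by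
      by_contra c
      push Not at c
      exact e j j.2 (Finset.mem_filter.2 ⟨hT j.2, c⟩)
    choose f J hf using this
    rw [← Fintype.card_coe]
    exact Fintype.card_le_of_injective f fun j j' d => Subtype.ext (by
      have := (hf j).symm.trans (d ▸ hf j')
      simp only [Option.some.injEq, Prod.mk.injEq] at this
      exact this.1)
  have f1 : ∀ j ∈ F, ∀ i k J, k ≤ n i → 3 * σ < G.dist (M i k) (l j J) := fun j hj i k J e =>
    not_le.1 fun d => let ⟨i', J', e'⟩ := n4 i k j J e ⟨(Finset.mem_filter.1 hj).1, d⟩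
      (Finset.mem_filter.1 hj).2 i' J' e'
  have f2 : ∀ i, μ i = none → ∀ j ∈ L, ∀ k J, n i ≤ k → 3 * σ < G.dist (M i k) (l j J) := by
    intro i hi j hj k J e
    have c : i ∈ A₀ := by
      by_contra c
      obtain ⟨T, t1, t2, t3⟩ := a3 i c
      refine absurd (f0 T t1 fun j hj d => ?_) (not_le.2 t2)
      obtain ⟨k, e1, J, e2⟩ := ((hB i j).resolve_right fun x => x.1 (t3 j hj)).1
      exact absurd e2 (not_le.2 (f1 j d i k J (n2 i hi ▸ e1)))
    exact ((hB i j).resolve_left fun x => a2 i c j hj x.2).2 k (n2 i hi ▸ e) J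
  have w : ∀ i, ∃ ψ : ℕ → V, ∀ j J, μ i = some (j, J) → LR G ψ ∧ SE G ψ b ∧ ψ 0 = M i 0 ∧
      ∀ z ∈ range ψ, (∃ k ≤ n i, z = M i k) ∨
        (G.dist (M i (n i)) z ≤ 3 * σ ∧ G.dist z (l j J) ≤ 3 * σ) ∨ ∃ J' > J, z = l j J' := by
    intro i
    rcases e : μ i with _ | ⟨j, J⟩
    · exact ⟨M i, by simp⟩
    obtain ⟨ψ, q1, q2, q3, q4⟩ := route hl hb (hM.lr i) (m := n i) (j := j) (J := J)
      (P := {z | G.dist (M i (n i)) z ≤ 3 * σ ∧ G.dist z (l j J) ≤ 3 * σ}) (Lk.geo fun z hz => by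
        have := (n3 i j J e).1.2
        exact ⟨by omega, by omega⟩)
    refine ⟨ψ, fun j' J' d => ?_⟩
    obtain ⟨rfl, rfl⟩ : j = j' ∧ J = J' := by simpa using d
    refine ⟨q1, q2, q3, fun z hz => ?_⟩
    rcases q4 hz with (⟨k, hk, rfl⟩ | d) | ⟨k, hk, rfl⟩
    exacts [Or.inl ⟨k, hk, rfl⟩, Or.inr (Or.inl d), Or.inr (Or.inr ⟨k, hk, rfl⟩)]
  choose Ψ hΨ using w
  have u : ∀ i, i ∉ Finset.univ.filter (fun i => μ i = none) → ∃ j J, μ i = some (j, J) :=
    fun i hi => by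
      rcases e : μ i with _ | ⟨j, J⟩
      · exact absurd (by simpa using e) hi
      · exact ⟨j, J, rfl⟩
  have f3 : ∀ i j J, μ i = some (j, J) → ∀ i' k J', k ≤ n i' → J < J' →
      3 * σ < G.dist (M i' k) (l j J') := fun i j J e i' k J' e1 e2 =>
    not_le.1 fun d => absurd ((n3 i j J e).2 i' k J' e1 ⟨(n3 i j J e).1.1, d⟩) (not_le.2 e2)
  refine ⟨Finset.univ.filter fun i => μ i = none, F, Ψ, ?_, fun i hi => ?_,
    fun i hi i' hi' ne => ?_, fun i hi i' hi' => ?_, fun i hi j' hj' => ?_, ?_⟩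
  · have e1 := f0 (L \ F) Finset.sdiff_subset fun j hj => (Finset.mem_sdiff.1 hj).2
    have e2 := Finset.le_card_sdiff F L
    have e3 := (Finset.univ.filter fun i => μ i = none).card_le_univ
    omega
  · obtain ⟨j, J, e⟩ := u i hi
    obtain ⟨q1, q2, q3, q4⟩ := hΨ i j J e
    refine ⟨q1, q2, q3, fun x hx z hz => ?_⟩
    rcases q4 z hz with ⟨k, -, rfl⟩ | ⟨d, -⟩ | ⟨k, -, rfl⟩
    · have := (hO i).2.1 x hx _ ⟨k, rfl⟩
      omega
    · have e1 := (hO i).2.1 x hx _ ⟨n i, rfl⟩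
      have e2 := tri (G := G) x z (M i (n i))
      rw [dcomm z] at e2
      omega
    · have := (hO i).2.2 j x hx _ ⟨k, rfl⟩
      omega
  · obtain ⟨j, J, e⟩ := u i hi
    obtain ⟨j', J', e'⟩ := u i' hi'
    have jj : j ≠ j' := by
      rintro rfl
      obtain rfl : J = J' := le_antisymm ((n3 i' j J' e').2 i _ J le_rfl (n3 i j J e).1)
        ((n3 i j J e).2 i' _ J' le_rfl (n3 i' j J' e').1)
      have e1 := (n3 i j J e).1.2
      have e2 := (n3 i' j J e').1.2
      have e3 := mm i i' (n i) (n i') ne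
      have e4 := tri (G := G) (M i (n i)) (l j J) (M i' (n i'))
      rw [dcomm (l j J)] at e4
      omega
    intro x hx z hz
    rcases (hΨ i j J e).2.2.2 x hx with ⟨k, c, rfl⟩ | ⟨c, d⟩ | ⟨k, c, rfl⟩ <;>
      rcases (hΨ i' j' J' e').2.2.2 z hz with ⟨k', c', rfl⟩ | ⟨c', d'⟩ | ⟨k', c', rfl⟩
    · have := mm i i' k k' ne
      omega
    · have e1 := mm i i' k (n i') ne
      have e2 := tri (G := G) (M i k) z (M i' (n i'))
      rw [dcomm z] at e2
      omega
    · have := f3 i' j' J' e' i k k' c c'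
      omega
    · have e1 := mm i i' (n i) k' ne
      have e2 := tri (G := G) (M i (n i)) x (M i' k')
      omega
    · have e1 := mm i i' (n i) (n i') ne
      have e2 := tri (G := G) (M i (n i)) x (M i' (n i'))
      have e3 := tri (G := G) x z (M i' (n i'))
      rw [dcomm z] at e3
      omega
    · have e1 := ll j j' J k' jj
      have e2 := tri (G := G) (l j J) x (l j' k')
      rw [dcomm (l j J) x] at e2
      omega
    · have := f3 i j J e i' k' k c' c
      rw [dcomm]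
      omega
    · have e1 := ll j j' k J' jj
      have e2 := tri (G := G) (l j k) z (l j' J')
      omega
    · have := ll j j' k k' jj
      omega
  · obtain ⟨j, J, e⟩ := u i hi
    have e' := (Finset.mem_filter.1 hi').2
    have ne : i ≠ i' := fun d => hi (d ▸ hi')
    rintro x hx _ ⟨k', rfl⟩
    rcases (hΨ i j J e).2.2.2 x hx with ⟨k, c, rfl⟩ | ⟨c, d⟩ | ⟨k, c, rfl⟩
    · have := mm i i' k k' ne
      omega
    · have e1 := mm i i' (n i) k' ne
      have e2 := tri (G := G) (M i (n i)) x (M i' k')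
      omega
    · rw [dcomm]
      rcases le_total k' (n i') with d | d
      · have := f3 i j J e i' k' k d c
        omega
      · have := f2 i' e' j (n3 i j J e).1.1 k' k d
        omega
  · obtain ⟨j, J, e⟩ := u i hi
    have jj : j ≠ j' := fun d => (Finset.mem_filter.1 hj').2 i J (d ▸ e)
    rintro x hx _ ⟨k', rfl⟩
    rcases (hΨ i j J e).2.2.2 x hx with ⟨k, c, rfl⟩ | ⟨c, d⟩ | ⟨k, c, rfl⟩
    · have := f1 j' hj' i k k' c
      omega
    · have e1 := ll j j' J k' jj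
      have e2 := tri (G := G) (l j J) x (l j' k')
      rw [dcomm (l j J) x] at e2
      omega
    · have := ll j j' k k' jj
      omega
  · rintro i hi j hj _ ⟨k, rfl⟩ _ ⟨J, rfl⟩
    rcases le_total k (n i) with d | d
    · have := f1 j hj i k J d
      omega
    · have := f2 i (Finset.mem_filter.1 hi).2 j (Finset.mem_filter.1 hj).1 k J d
      omega

end USE

open USE in
theorem useSpec : PymSpec → ReachSpec → USESpec := by
  intro hP hR V ι κ G _ _ _ _ σ a b M l O hσ ha hb hab hM hl hc hO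
  classical
  obtain ⟨A, F, Ψ, h⟩ := start hP hσ hb hM hl hc hO
  generalize hn : A.card = n
  induction n generalizing A F Ψ with
  | zero =>
    obtain rfl := Finset.card_eq_zero.1 hn
    exact ⟨Ψ, ⟨fun i => (h.ray i (by simp)).1, fun i => (h.ray i (by simp)).2.1,
      fun i j => h.pp i (by simp) j (by simp)⟩, fun i => (h.ray i (by simp)).2.2⟩
  | succ n ih =>
    obtain ⟨i, hi, F', Ψ', h'⟩ := step hR hσ ha hb hab hM hl hO h (Finset.card_pos.1 (by omega))
    exact ih _ _ _ h' (by rw [Finset.card_erase_of_mem hi, hn]; rfl)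

end Pool.Agent.MP_77f003_co.H49
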